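import Pool.Agent.H96.TN.BND3

/-!
TN, module BND: one band, the first block has high frequencies.
-/

set_option autoImplicit false

namespace Pool.Agent.H96.TN

open MeasureTheory Set FourierTransform
open Pool.Agent.H83.LS Pool.Agent.H93.AR Pool.Agent.H54.LS Pool.Agent.H14.LS Pool.Agent.H83.AR
open Pool.Agent.H84.BR Pool.Agent.H84.B2 Pool.Agent.H93.TN
open scoped ENNReal NNReal

theorem piece (hWSL : T_WSL) (a b : ℕ) (q γ Lam₁ lam CM : ℝ) (hq : 2 < q) (hγ0 : 0 ≤ γ)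
    (hγ : γ ≤ q) (hL : 0 < Lam₁) (hL2 : Lam₁ ≤ 4 * lam) (hCM : 0 ≤ CM)
    (l : EE (a + b) → ℝ) (hl : Continuous l) (hl2 : ∀ x z, l (x - z) = l x - l z) (u : EE a)
    (hlu : ∀ z, |l z| ≤ |inner ℝ (p1 a b z) u|) (k : EE (a + b) → ℝ≥0∞) (hk : Measurable k)
    (hkI : ∫⁻ x, k x * ENNReal.ofReal (1 + lam * |inner ℝ (p1 a b x) u|) ≤ ENNReal.ofReal CM)
    (U : ℝ → EE (a + b) → ℝ≥0∞) (hU : Measurable (Function.uncurry U)) (G : ℝ≥0∞)
    (hG : ∀ σ : ℝ, 1 / Lam₁ ≤ σ →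
      ∫⁻ t in Icc (1 : ℝ) 2, ∫⁻ x in {x | |l x| ≤ σ}, U t x ^ q ≤ G * ENNReal.ofReal (σ ^ γ))
    (σ : ℝ) (hσ : 1 / Lam₁ ≤ σ) :
    ∫⁻ t in Icc (1 : ℝ) 2, ∫⁻ x in {x | |l x| ≤ σ}, (∫⁻ z, k z * U t (x - z)) ^ q ≤
      G * ENNReal.ofReal (σ ^ γ) * ENNReal.ofReal ((4 * CM) ^ q) := by
  refine (hWSL (a + b) q γ Lam₁ l k U (fun t x => ∫⁻ z, k z * U t (x - z)) G (by linarith) hγ0 hγ
    hL hl hl2 hk hU (fun t _ x => le_rfl) hG σ hσ).trans ?_
  have h1 : ∫⁻ z, k z * ENNReal.ofReal (1 + Lam₁ * |l z|) ≤ ENNReal.ofReal (4 * CM) := by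
    calc ∫⁻ z, k z * ENNReal.ofReal (1 + Lam₁ * |l z|) ≤
        ∫⁻ z, 4 * (k z * ENNReal.ofReal (1 + lam * |inner ℝ (p1 a b z) u|)) := by
          refine lintegral_mono fun z => ?_
          have h2 : ENNReal.ofReal (1 + Lam₁ * |l z|) ≤
              4 * ENNReal.ofReal (1 + lam * |inner ℝ (p1 a b z) u|) := by
            rw [show (4 : ℝ≥0∞) = ENNReal.ofReal 4 by simp, ← ENNReal.ofReal_mul (by norm_num)]
            apply ENNReal.ofReal_le_ofReal
            have h3 : Lam₁ * |l z| ≤ (4 * lam) * |inner ℝ (p1 a b z) u| :=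
              mul_le_mul hL2 (hlu z) (abs_nonneg _) (by linarith)
            linarith
          calc k z * ENNReal.ofReal (1 + Lam₁ * |l z|) ≤
              k z * (4 * ENNReal.ofReal (1 + lam * |inner ℝ (p1 a b z) u|)) :=
                mul_le_mul' le_rfl h2
            _ = _ := by ring
      _ = 4 * ∫⁻ z, k z * ENNReal.ofReal (1 + lam * |inner ℝ (p1 a b z) u|) :=
          lintegral_const_mul' _ _ (by norm_num)
      _ ≤ 4 * ENNReal.ofReal CM := mul_le_mul' le_rfl hkI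
      _ = ENNReal.ofReal (4 * CM) := by
          rw [ENNReal.ofReal_mul (by norm_num)]; simp
  refine mul_le_mul' le_rfl ((ENNReal.rpow_le_rpow h1 (by linarith)).trans (le_of_eq ?_))
  rw [ENNReal.ofReal_rpow_of_nonneg (by positivity) (by linarith)]

/-- the scales of the pieces -/
theorem scales (lam Lam₁ : ℝ) (hl : 4 ≤ lam) (hL : 0 < Lam₁) (hL2 : Lam₁ ≤ 4 * lam) (i : Fin 2)
    (j : Fin 4) : 1 ≤ lam / 2 ^ (j : ℕ) * 2 ∧ lam / 2 ^ (j : ℕ) * 2 ≤ 2 * lam ∧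
    0 < min Lam₁ lam / 8 ^ (i : ℕ) ∧
    min Lam₁ lam / 8 ^ (i : ℕ) ≤ 4 * (lam / 2 ^ (j : ℕ) * 2) ∧
    (lam / 2 ^ (j : ℕ) * 2) / (min Lam₁ lam / 8 ^ (i : ℕ)) ≤ 64 * (lam / Lam₁) := by
  have h1 : (2 : ℝ) ^ (j : ℕ) ≤ 8 := by
    calc (2 : ℝ) ^ (j : ℕ) ≤ 2 ^ 3 := pow_le_pow_right₀ (by norm_num) (by omega)
      _ = 8 := by norm_num
  have h2 : (1 : ℝ) ≤ 2 ^ (j : ℕ) := one_le_pow₀ (by norm_num)
  have h3 : (8 : ℝ) ^ (i : ℕ) ≤ 8 := by
    calc (8 : ℝ) ^ (i : ℕ) ≤ 8 ^ 1 := pow_le_pow_right₀ (by norm_num) (by omega)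
      _ = 8 := by norm_num
  have h4 : (1 : ℝ) ≤ 8 ^ (i : ℕ) := one_le_pow₀ (by norm_num)
  have hlp : 0 < lam := by linarith
  have hm : 0 < min Lam₁ lam := lt_min hL hlp
  have hm2 : Lam₁ / 4 ≤ min Lam₁ lam := le_min (by linarith) (by linarith)
  have hm3 : min Lam₁ lam ≤ lam := min_le_right _ _
  have h5 : lam / 8 ≤ lam / 2 ^ (j : ℕ) := div_le_div_of_nonneg_left hlp.le (by positivity) h1
  have h6 : lam / 2 ^ (j : ℕ) ≤ lam := div_le_self hlp.le h2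
  have h7 : min Lam₁ lam / 8 ^ (i : ℕ) ≤ min Lam₁ lam := div_le_self hm.le h4
  have h8 : min Lam₁ lam / 8 ≤ min Lam₁ lam / 8 ^ (i : ℕ) :=
    div_le_div_of_nonneg_left hm.le (by positivity) h3
  refine ⟨by linarith, by linarith, by positivity, by linarith, ?_⟩
  rw [div_le_iff₀ (by positivity)]
  have h9 : Lam₁ / 32 ≤ min Lam₁ lam / 8 ^ (i : ℕ) := by linarith
  calc lam / 2 ^ (j : ℕ) * 2 ≤ 2 * lam := by linarith
    _ = 64 * (lam / Lam₁) * (Lam₁ / 32) := by field_simp; norm_num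
    _ ≤ _ := by gcongr

theorem p1_sub' (a b : ℕ) (x z : EE (a + b)) : p1 a b (x - z) = p1 a b x - p1 a b z := by
  unfold p1
  ext i
  simp

theorem pf_bnd (hPLS : T_PLS) (hPLP : T_PLP) (hMKR : T_MKR) (hWSL : T_WSL) (hBNS : T_BNS)
    (hCB1 : T_CB1) (hCB2 : T_CB2) (hQM : T_QM) (hSEL : T_SEL) (hSV2 : T_SV2) (hPLE : T_PLE)
    (hJM : Pool.Agent.H83.AR.T_JM) : T_BND := by
  intro a b q η ha hb hq hq3 hη
  obtain ⟨CS, hCS⟩ := hPLS a b q η ha hb hq hq3 hη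
  obtain ⟨CP, hCP, hP⟩ := hPLP a b ha hb
  obtain ⟨CM, hCM, hM⟩ := hMKR a b ha hb
  obtain ⟨lam₀, hlam₀, hB⟩ := hBNS
  obtain ⟨C₂, hC₂, hg⟩ := g2_ex hSEL hCB1 hCB2 hQM a b ha hb
  set lam₁ : ℝ := max lam₀ 4 with hlam₁
  obtain ⟨Cs, hCs, hsm⟩ := small hJM hPLE hSV2 a b ha hb q lam₁ C₂ hq hC₂
  set γ : ℝ := 2 - q / 2 with hγ
  have hγ0 : 0 ≤ γ := by linarith
  have hγq : γ ≤ q := by linarith
  have hl14 : 4 ≤ lam₁ := le_max_right _ _
  set K : ℝ := 2 ^ η * 64 ^ γ * (C₂ ^ (q - 2) * C₂) * (4 * CM) ^ q with hK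
  have hC₂0 : 0 ≤ C₂ := by linarith
  have hK0 : 0 ≤ K := by positivity
  set Cf : ℝ≥0∞ := 8 ^ (q - 1) * (8 * (CS * ENNReal.ofReal K)) +
    ENNReal.ofReal (Cs * (16 * lam₁) ^ γ) with hCf
  have hCft : Cf ≠ ∞ := by
    rw [hCf]
    refine ENNReal.add_ne_top.mpr ⟨?_, ENNReal.ofReal_ne_top⟩
    refine ENNReal.mul_ne_top (ENNReal.rpow_ne_top_of_nonneg (by linarith) (by norm_num)) ?_
    exact ENNReal.mul_ne_top (by norm_num)
      (ENNReal.mul_ne_top ENNReal.coe_ne_top ENNReal.ofReal_ne_top)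
  refine ⟨Cf.toNNReal, ?_⟩
  rw [ENNReal.coe_toNNReal hCft]
  intro lam Lam₁ Lam₂ A c₁ c₂ κ₁ κ₂ u w g hl hu hL1 hL2 hc₁ hκ₁ hBS hgA
  subst hκ₁
  have hA := BI_nonneg hgA
  have hw : ‖w‖ = 1 := hBS.1
  have hsq : 1 ≤ Real.sqrt lam := Real.one_le_sqrt.mpr hl
  have hL : 0 < Lam₁ := by linarith
  have hlp : 0 < lam := by linarith
  obtain ⟨g2, hg2, hF, hE⟩ := hg lam Lam₁ Lam₂ A c₂ κ₂ u w g hl hu hL1 hBS hgA
  have hlη : 1 ≤ lam ^ η := Real.one_le_rpow hl hη.le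
  rcases le_total lam lam₁ with hsmall | hbig
  · -- bounded frequencies
    have h16 : 1 ≤ (16 * lam₁) ^ γ := Real.one_le_rpow (by linarith) hγ0
    constructor
    · have h1 := hsm lam Lam₁ A c₁ c₂ κ₂ u g g2 univ hl hsmall hc₁ hA hg2 hF hE
      simp only [Measure.restrict_univ] at h1
      refine h1.trans ?_
      refine mul_le_mul' ?_ le_rfl
      calc ENNReal.ofReal (Cs * A ^ (q - 2)) ≤
          ENNReal.ofReal (Cs * (16 * lam₁) ^ γ * (lam ^ η * A ^ (q - 2))) := by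
            apply ENNReal.ofReal_le_ofReal
            calc Cs * A ^ (q - 2) = Cs * 1 * (1 * A ^ (q - 2)) := by ring
              _ ≤ _ := by gcongr
        _ = ENNReal.ofReal (Cs * (16 * lam₁) ^ γ) * ENNReal.ofReal (lam ^ η * A ^ (q - 2)) :=
            ENNReal.ofReal_mul (by positivity)
        _ ≤ _ := mul_le_mul' le_add_self le_rfl
    · intro σ hσ
      have hσ0 : 0 < σ := lt_of_lt_of_le (by positivity) hσ
      refine (hsm lam Lam₁ A c₁ c₂ κ₂ u g g2 _ hl hsmall hc₁ hA hg2 hF hE).trans ?_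
      refine mul_le_mul' ?_ le_rfl
      have h2 : 1 ≤ (16 * lam₁) * (σ * lam / Lam₁) := by
        have h3 : 1 / (16 * lam) ≤ σ * lam / Lam₁ := by
          calc 1 / (16 * lam) = lam / (4 * lam) ^ 2 := by field_simp; norm_num
            _ ≤ lam / Lam₁ ^ 2 := by gcongr
            _ = (1 / Lam₁) * lam / Lam₁ := by field_simp
            _ ≤ σ * lam / Lam₁ := by gcongr
        calc (1 : ℝ) = (16 * lam) * (1 / (16 * lam)) := by field_simp
          _ ≤ (16 * lam₁) * (σ * lam / Lam₁) := by gcongr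
      have h3 : 1 ≤ (16 * lam₁) ^ γ * (σ * lam / Lam₁) ^ γ := by
        rw [← Real.mul_rpow (by linarith) (by positivity)]
        exact Real.one_le_rpow h2 hγ0
      calc ENNReal.ofReal (Cs * A ^ (q - 2)) ≤
          ENNReal.ofReal (Cs * (16 * lam₁) ^ γ *
            (lam ^ η * (σ * lam / Lam₁) ^ γ * A ^ (q - 2))) := by
            apply ENNReal.ofReal_le_ofReal
            calc Cs * A ^ (q - 2) = Cs * (1 * 1 * A ^ (q - 2)) := by ring
              _ ≤ Cs * (lam ^ η * ((16 * lam₁) ^ γ * (σ * lam / Lam₁) ^ γ) * A ^ (q - 2)) := by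
                  gcongr
              _ = _ := by ring
        _ = ENNReal.ofReal (Cs * (16 * lam₁) ^ γ) *
            ENNReal.ofReal (lam ^ η * (σ * lam / Lam₁) ^ γ * A ^ (q - 2)) :=
            ENNReal.ofReal_mul (by positivity)
        _ ≤ _ := mul_le_mul' le_add_self le_rfl
  · -- large frequencies
    have hl4 : 4 ≤ lam := hl14.trans hbig
    have hl0 : lam₀ ≤ lam := (le_max_left _ _).trans hbig
    obtain ⟨hm1, -, k, hk, hkb, hkI⟩ := hM lam u w hl hu hw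
    have hsc := fun i j => scales lam Lam₁ hl4 hL hL2 i j
    have hU := fun (i : Fin 2) (j : Fin 4) => hCS (lam / 2 ^ (j : ℕ) * 2)
      (min Lam₁ lam / 8 ^ (i : ℕ)) (C₂ * A) u w g2 (hsc i j).1 (hsc i j).2.2.1
      (hsc i j).2.2.2.1 hu hw hg2
    have hpw : ∀ t ∈ Icc (1 : ℝ) 2, ∀ x,
        ‖MM (mB a b c₁ c₂ (sy a ch2 Lam₁ (dl lam Lam₁) u) κ₂ lam t) g x‖ₑ ≤
          ∑ i : Fin 2, ∑ j : Fin 4, Wk a b u w k g2 (lam / 2 ^ (j : ℕ) * 2)
            (min Lam₁ lam / 8 ^ (i : ℕ)) t x := by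
      intro t ht x
      refine pw hPLE a b lam Lam₁ t (CP * Real.sqrt (2 * lam) * (C₂ * A)) c₁ c₂ _ κ₂ u w g g2 k
        (fun ξ => hB a b lam Lam₁ Lam₂ t c₁ c₂ _ κ₂ u w ξ ha hb hl0 hu hc₁ rfl hL1 hL2 hBS)
        hF (fun i j => ?_) (hm1 t).1 (hm1 t).2.1 (hm1 t).2.2 (fun x => hkb t ht x) x
      obtain ⟨r1, r2⟩ := hP (lam / 2 ^ (j : ℕ) * 2) (min Lam₁ lam / 8 ^ (i : ℕ)) t (C₂ * A) u w
        g2 (hsc i j).1 (hsc i j).2.2.1 (hsc i j).2.2.2.1 ht hu hw hg2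
      refine ⟨BI_mono r1 ?_, r2⟩
      have := (hsc i j).2.1
      gcongr
    have hWm : ∀ (i : Fin 2) (j : Fin 4), Measurable (Function.uncurry (fun t x =>
        Wk a b u w k g2 (lam / 2 ^ (j : ℕ) * 2) (min Lam₁ lam / 8 ^ (i : ℕ)) t x)) :=
      fun i j => Wk_meas a b u w k g2 _ _ hk (hU i j).1
    have hUm : ∀ (i : Fin 2) (j : Fin 4), Measurable (Function.uncurry (fun (t : ℝ) x =>
        ‖pl a b u w (KK t (lam / 2 ^ (j : ℕ) * 2) (min Lam₁ lam / 8 ^ (i : ℕ))) g2 x‖ₑ)) :=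
      fun i j => (hU i j).1.enorm
    have h64 : (1 : ℝ) ≤ 64 ^ γ := Real.one_le_rpow (by norm_num) hγ0
    have hlj : ∀ j : Fin 4, (lam / 2 ^ (j : ℕ) * 2) ^ η ≤ 2 ^ η * lam ^ η := by
      intro j
      rw [← Real.mul_rpow (by norm_num) hlp.le]
      have := (hsc 0 j).2.1
      exact Real.rpow_le_rpow (by positivity) this hη.le
    have hfin : ∀ X : ℝ, 0 ≤ X → 8 ^ (q - 1) * (8 * (CS * ENNReal.ofReal (K * X) *
        ∫⁻ x, ‖g x‖ₑ ^ 2)) ≤ Cf * ENNReal.ofReal X * ∫⁻ x, ‖g x‖ₑ ^ 2 := by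
      intro X hX
      rw [ENNReal.ofReal_mul hK0]
      calc 8 ^ (q - 1) * (8 * (CS * (ENNReal.ofReal K * ENNReal.ofReal X) *
          ∫⁻ x, ‖g x‖ₑ ^ 2)) = 8 ^ (q - 1) * (8 * (CS * ENNReal.ofReal K)) *
            ENNReal.ofReal X * ∫⁻ x, ‖g x‖ₑ ^ 2 := by ring
        _ ≤ _ := mul_le_mul' (mul_le_mul' le_self_add le_rfl) le_rfl
    constructor
    · have h1 : ∀ (i : Fin 2) (j : Fin 4), ∫⁻ t in Icc (1 : ℝ) 2, ∫⁻ x in univ,
          Wk a b u w k g2 (lam / 2 ^ (j : ℕ) * 2) (min Lam₁ lam / 8 ^ (i : ℕ)) t x ^ q ≤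
          CS * ENNReal.ofReal (K * (lam ^ η * A ^ (q - 2))) * ∫⁻ x, ‖g x‖ₑ ^ 2 := by
        intro i j
        have h2 := piece hWSL a b q 0 Lam₁ lam CM hq le_rfl (by linarith) hL hL2 hCM
          (fun _ => 0) continuous_const (fun x z => by simp) u (fun z => by simp) k hk hkI _
          (hUm i j) (CS * ENNReal.ofReal ((lam / 2 ^ (j : ℕ) * 2) ^ η * (C₂ * A) ^ (q - 2)) *
            ∫⁻ x, ‖g2 x‖ₑ ^ 2) (fun σ hσ => by
              rw [Real.rpow_zero, ENNReal.ofReal_one, mul_one]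
              refine le_trans ?_ (hU i j).2.1
              exact lintegral_mono fun t => setLIntegral_le_lintegral _ _)
          (1 / Lam₁) le_rfl
        have h3 : {x : EE (a + b) | |(0 : ℝ)| ≤ 1 / Lam₁} = univ := by
          ext x
          simp only [abs_zero, Set.mem_ofPred_eq, mem_univ, iff_true]
          positivity
        rw [h3] at h2
        refine (le_of_eq ?_).trans (h2.trans ?_)
        · rfl
        · rw [Real.rpow_zero, ENNReal.ofReal_one, mul_one]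
          calc CS * ENNReal.ofReal ((lam / 2 ^ (j : ℕ) * 2) ^ η * (C₂ * A) ^ (q - 2)) *
                (∫⁻ x, ‖g2 x‖ₑ ^ 2) * ENNReal.ofReal ((4 * CM) ^ q) ≤
              CS * ENNReal.ofReal ((2 ^ η * lam ^ η) * (C₂ * A) ^ (q - 2)) *
                (ENNReal.ofReal C₂ * ∫⁻ x, ‖g x‖ₑ ^ 2) * ENNReal.ofReal ((4 * CM) ^ q) := by
                have := hlj j
                gcongr
            _ = CS * (ENNReal.ofReal ((2 ^ η * lam ^ η) * (C₂ * A) ^ (q - 2)) *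
                ENNReal.ofReal C₂ * ENNReal.ofReal ((4 * CM) ^ q)) * ∫⁻ x, ‖g x‖ₑ ^ 2 := by
                ring
            _ ≤ _ := by
                refine mul_le_mul' (mul_le_mul' le_rfl ?_) le_rfl
                rw [← ENNReal.ofReal_mul (by positivity), ← ENNReal.ofReal_mul (by positivity)]
                apply ENNReal.ofReal_le_ofReal
                rw [Real.mul_rpow hC₂0 hA, hK]
                calc 2 ^ η * lam ^ η * (C₂ ^ (q - 2) * A ^ (q - 2)) * C₂ * (4 * CM) ^ q =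
                    2 ^ η * 1 * (C₂ ^ (q - 2) * C₂) * (4 * CM) ^ q *
                      (lam ^ η * A ^ (q - 2)) := by ring
                  _ ≤ _ := by gcongr
      have h2 := sum8 q (by linarith) univ (fun t x =>
        ‖MM (mB a b c₁ c₂ (sy a ch2 Lam₁ (dl lam Lam₁) u) κ₂ lam t) g x‖ₑ) _ _ hWm hpw h1
      simp only [Measure.restrict_univ] at h2
      exact h2.trans (hfin _ (by positivity))
    · intro σ hσ
      have hσ0 : 0 < σ := lt_of_lt_of_le (by positivity) hσ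
      have hJ := hJM a b
      have hc1 : Continuous (p1 a b) := hJ.2.2.2.2.2.1
      have h1 : ∀ (i : Fin 2) (j : Fin 4), ∫⁻ t in Icc (1 : ℝ) 2,
          ∫⁻ x in {x : EE (a + b) | |inner ℝ (p1 a b x) u| ≤ σ},
          Wk a b u w k g2 (lam / 2 ^ (j : ℕ) * 2) (min Lam₁ lam / 8 ^ (i : ℕ)) t x ^ q ≤
          CS * ENNReal.ofReal (K * (lam ^ η * (σ * lam / Lam₁) ^ γ * A ^ (q - 2))) *
            ∫⁻ x, ‖g x‖ₑ ^ 2 := by
        intro i j
        obtain ⟨s1, s2, s3, s4, s5⟩ := hsc i j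
        set lj : ℝ := lam / 2 ^ (j : ℕ) * 2 with hlj'
        set Li : ℝ := min Lam₁ lam / 8 ^ (i : ℕ) with hLi'
        have hlj0 : 0 < lj := by linarith
        have h2 := piece hWSL a b q γ Lam₁ lam CM hq hγ0 hγq hL hL2 hCM
          (fun x => inner ℝ (p1 a b x) u) (hc1.inner continuous_const)
          (fun x z => by rw [p1_sub', inner_sub_left]) u (fun z => le_rfl) k hk hkI _
          (hUm i j) (CS * ENNReal.ofReal (lj ^ η * (lj / Li) ^ γ * (C₂ * A) ^ (q - 2)) *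
            ∫⁻ x, ‖g2 x‖ₑ ^ 2) (fun σ' hσ' => by
              have hσ'0 : 0 < σ' := lt_of_lt_of_le (by positivity) hσ'
              refine ((hU i j).2.2 σ' hσ'0).trans (le_of_eq ?_)
              have e1 : (σ' * lj / Li) ^ γ = σ' ^ γ * (lj / Li) ^ γ := by
                rw [mul_div_assoc, Real.mul_rpow hσ'0.le (by positivity)]
              rw [e1]
              have e2 : lj ^ η * (σ' ^ γ * (lj / Li) ^ γ) * (C₂ * A) ^ (q - 2) =
                  lj ^ η * (lj / Li) ^ γ * (C₂ * A) ^ (q - 2) * σ' ^ γ := by ring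
              rw [e2, ENNReal.ofReal_mul (by positivity)]
              ring)
          σ hσ
        refine h2.trans ?_
        have e3 : (lj / Li) ^ γ ≤ 64 ^ γ * (lam / Lam₁) ^ γ := by
          rw [← Real.mul_rpow (by norm_num) (by positivity)]
          exact Real.rpow_le_rpow (by positivity) s5 hγ0
        calc CS * ENNReal.ofReal (lj ^ η * (lj / Li) ^ γ * (C₂ * A) ^ (q - 2)) *
              (∫⁻ x, ‖g2 x‖ₑ ^ 2) * ENNReal.ofReal (σ ^ γ) * ENNReal.ofReal ((4 * CM) ^ q) ≤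
            CS * ENNReal.ofReal ((2 ^ η * lam ^ η) * (64 ^ γ * (lam / Lam₁) ^ γ) *
              (C₂ * A) ^ (q - 2)) * (ENNReal.ofReal C₂ * ∫⁻ x, ‖g x‖ₑ ^ 2) *
              ENNReal.ofReal (σ ^ γ) * ENNReal.ofReal ((4 * CM) ^ q) := by
              have := hlj j
              gcongr
          _ = CS * (ENNReal.ofReal ((2 ^ η * lam ^ η) * (64 ^ γ * (lam / Lam₁) ^ γ) *
              (C₂ * A) ^ (q - 2)) * ENNReal.ofReal C₂ * ENNReal.ofReal (σ ^ γ) *
              ENNReal.ofReal ((4 * CM) ^ q)) * ∫⁻ x, ‖g x‖ₑ ^ 2 := by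
              ring
          _ ≤ _ := by
              refine mul_le_mul' (mul_le_mul' le_rfl (le_of_eq ?_)) le_rfl
              rw [← ENNReal.ofReal_mul (by positivity), ← ENNReal.ofReal_mul (by positivity),
                ← ENNReal.ofReal_mul (by positivity)]
              congr 1
              rw [Real.mul_rpow hC₂0 hA, hK, mul_div_assoc σ,
                Real.mul_rpow hσ0.le (by positivity)]
              ring
      exact (sum8 q (by linarith) _ (fun t x =>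
        ‖MM (mB a b c₁ c₂ (sy a ch2 Lam₁ (dl lam Lam₁) u) κ₂ lam t) g x‖ₑ) _ _ hWm hpw
          h1).trans (hfin _ (by positivity))

end Pool.Agent.H96.TN
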