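import Pool.Agent.H93.TN.TargetsB

/-!
TN, module BNS: decomposition of the symbol of a band.
-/

set_option autoImplicit false

namespace Pool.Agent.H96.TN

open MeasureTheory Set FourierTransform
open Pool.Agent.H83.LS Pool.Agent.H93.AR Pool.Agent.H54.LS Pool.Agent.H14.LS Pool.Agent.H83.AR
open Pool.Agent.H84.BR Pool.Agent.H84.B2 Pool.Agent.H93.TN
open scoped ENNReal NNReal

theorem e0_one {s : ℝ} (h : s ≤ 1) : eta0 s = 1 :=
  Real.smoothTransition.one_of_one_le (by linarith)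

theorem e0_zero {s : ℝ} (h : 2 ≤ s) : eta0 s = 0 :=
  Real.smoothTransition.zero_of_nonpos (by linarith)

theorem e0_lt {s : ℝ} (h : eta0 s ≠ 0) : s < 2 := by
  by_contra hc
  exact h (e0_zero (not_lt.mp hc))

theorem chi_sup {s : ℝ} (h : chi s ≠ 0) : 1 / 2 ≤ s ∧ s ≤ 2 := by
  constructor
  · by_contra hc
    exact h (by unfold chi; rw [e0_one (by linarith), e0_one (by linarith), sub_self])
  · by_contra hc
    exact h (by unfold chi; rw [e0_zero (by linarith), e0_zero (by linarith), sub_self])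

theorem ee_add (x y : ℝ) : e (x + y) = e x * e y := by
  unfold e
  rw [← Complex.exp_add]
  congr 1
  push_cast
  ring

/-- the direction `ξ/|ξ|` is close to `u`: bounds for the component of `ξ` along `u` -/
theorem sector {n : ℕ} (u ξ : EE n) (lam Lam : ℝ) (hu : ‖u‖ = 1) (hl : 1 ≤ lam)
    (h1 : Real.sqrt lam ≤ Lam) (hx1 : Lam / 2 ≤ ‖ξ‖) (hx2 : ‖ξ‖ ≤ 2 * Lam)
    (hs : eta0 ((‖‖ξ‖⁻¹ • ξ - u‖ / dl lam Lam) ^ 2) ≠ 0) :
    ‖ξ‖ ^ 2 - (inner ℝ ξ u : ℝ) ^ 2 ≤ lam / 32 ∧ Lam / 4 ≤ (inner ℝ ξ u : ℝ) ∧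
      (inner ℝ ξ u : ℝ) ≤ ‖ξ‖ := by
  have hsq : 1 ≤ Real.sqrt lam := Real.one_le_sqrt.mpr hl
  have hLam : 0 < Lam := by linarith
  have hsl : Real.sqrt lam ^ 2 = lam := Real.sq_sqrt (by linarith)
  have hdl : 0 < dl lam Lam := by unfold dl; positivity
  have hxp : 0 < ‖ξ‖ := by linarith
  set v : EE n := ‖ξ‖⁻¹ • ξ with hv
  have hvn : ‖v‖ = 1 := by
    rw [hv, norm_smul, norm_inv, norm_norm, inv_mul_cancel₀ hxp.ne']
  have hxv : ξ = ‖ξ‖ • v := by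
    rw [hv, smul_smul, mul_inv_cancel₀ hxp.ne', one_smul]
  have hdist : ‖v - u‖ ^ 2 < 2 * dl lam Lam ^ 2 := by
    have := e0_lt hs
    rw [div_pow, div_lt_iff₀ (by positivity)] at this
    exact this
  have hvu : (inner ℝ v u : ℝ) = 1 - ‖v - u‖ ^ 2 / 2 := by
    have := norm_sub_sq_real v u
    rw [hvn, hu] at this
    linarith
  have hin : (inner ℝ ξ u : ℝ) = ‖ξ‖ * inner ℝ v u := by
    conv_lhs => rw [hxv]
    rw [real_inner_smul_left]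
  have hdl1 : dl lam Lam ^ 2 * (256 * Lam ^ 2) = lam := by
    unfold dl
    rw [div_pow, hsl, mul_pow]
    field_simp
    norm_num
  have hdl2 : dl lam Lam ^ 2 ≤ 1 / 256 := by
    have : lam ≤ Lam ^ 2 := by nlinarith
    nlinarith [sq_nonneg (dl lam Lam), sq_pos_of_pos hLam]
  set D : ℝ := ‖v - u‖ ^ 2 with hD
  have hD0 : 0 ≤ D := by positivity
  refine ⟨?_, ?_, ?_⟩
  · rw [hin, hvu]
    have h3 : ‖ξ‖ ^ 2 - (‖ξ‖ * (1 - D / 2)) ^ 2 ≤ ‖ξ‖ ^ 2 * D := by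
      nlinarith [sq_nonneg (‖ξ‖ * D)]
    have h4 : ‖ξ‖ ^ 2 ≤ 4 * Lam ^ 2 := by nlinarith
    have h5 : ‖ξ‖ ^ 2 * D ≤ 4 * Lam ^ 2 * (2 * dl lam Lam ^ 2) :=
      mul_le_mul h4 hdist.le hD0 (by positivity)
    linarith
  · rw [hin, hvu]
    have : 1 / 2 ≤ 1 - D / 2 := by linarith
    nlinarith
  · rw [hin, hvu]
    nlinarith

/-- telescoping sums of the cutoffs -/
theorem sum_cut (z z1 lam Lam₁ t : ℝ) (hl0 : 0 < lam) (hLp : 0 < Lam₁) (k2 : lam / 4 ≤ z)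
    (k3 : z ≤ 2 * lam) (hzl : z1 ≤ 2 * lam) (hzL : z1 ≤ 2 * Lam₁) (s2 : Lam₁ / 4 ≤ z1) :
    ∑ i : Fin 2, ∑ j : Fin 4, e (t * z) * ((chi (z / (lam / 2 ^ (j : ℕ) * 2)) *
        chis (z1 / (min Lam₁ lam / 8 ^ (i : ℕ))) : ℝ) : ℂ) = e (t * z) := by
  have hm : 0 < min Lam₁ lam := lt_min hLp hl0
  have hj : ∑ j : Fin 4, chi (z / (lam / 2 ^ (j : ℕ) * 2)) = 1 := by
    have e1 : ∀ j : ℕ, z / (lam / 2 ^ j * 2) = 2 ^ j * (z / (2 * lam)) := by
      intro j; field_simp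
    simp only [Fin.sum_univ_four, e1]
    unfold chi
    have h1 : eta0 (z / (2 * lam)) = 1 :=
      e0_one (by rw [div_le_iff₀ (by positivity)]; linarith)
    have h2 : eta0 (16 * (z / (2 * lam))) = 0 :=
      e0_zero (by rw [← mul_div_assoc, le_div_iff₀ (by positivity)]; linarith)
    generalize z / (2 * lam) = s at *
    have e2 : (2 : ℝ) * (2 ^ ((0 : Fin 4) : ℕ) * s) = 2 ^ ((1 : Fin 4) : ℕ) * s := by norm_num
    have e3 : (2 : ℝ) * (2 ^ ((1 : Fin 4) : ℕ) * s) = 2 ^ ((2 : Fin 4) : ℕ) * s := by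
      norm_num; ring
    have e4 : (2 : ℝ) * (2 ^ ((2 : Fin 4) : ℕ) * s) = 2 ^ ((3 : Fin 4) : ℕ) * s := by
      norm_num; ring
    have e5 : (2 : ℝ) * (2 ^ ((3 : Fin 4) : ℕ) * s) = 16 * s := by
      norm_num; ring
    have e6 : (2 : ℝ) ^ ((0 : Fin 4) : ℕ) * s = s := by norm_num
    rw [e2, e3, e4, e5, e6, h1, h2]
    ring
  have hi : ∑ i : Fin 2, chis (z1 / (min Lam₁ lam / 8 ^ (i : ℕ))) = 1 := by
    have e1 : ∀ j : ℕ, z1 / (min Lam₁ lam / 8 ^ j) = 8 ^ j * (z1 / min Lam₁ lam) := by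
      intro j; field_simp
    simp only [Fin.sum_univ_two, e1]
    unfold chis
    have hzu : z1 ≤ 2 * min Lam₁ lam := by
      rcases min_cases Lam₁ lam with h | h <;> rw [h.1] <;> linarith
    have hzd : min Lam₁ lam / 4 ≤ z1 := by
      have := min_le_left Lam₁ lam
      linarith
    have h1 : eta0 (z1 / min Lam₁ lam / 2) = 1 :=
      e0_one (by rw [div_div, div_le_iff₀ (by positivity)]; linarith)
    have h2 : eta0 (32 * (z1 / min Lam₁ lam)) = 0 :=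
      e0_zero (by rw [← mul_div_assoc, le_div_iff₀ hm]; linarith)
    generalize z1 / min Lam₁ lam = s at *
    have e2 : (8 : ℝ) ^ ((0 : Fin 2) : ℕ) * s / 2 = s / 2 := by norm_num
    have e3 : (8 : ℝ) ^ ((1 : Fin 2) : ℕ) * s / 2 = 4 * (8 ^ ((0 : Fin 2) : ℕ) * s) := by
      norm_num; ring
    have e4 : (4 : ℝ) * (8 ^ ((1 : Fin 2) : ℕ) * s) = 32 * s := by
      norm_num; ring
    rw [e2, e3, e4, h1, h2]
    ring
  have h4 : ∑ i : Fin 2, ∑ j : Fin 4, (chi (z / (lam / 2 ^ (j : ℕ) * 2)) *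
      chis (z1 / (min Lam₁ lam / 8 ^ (i : ℕ)))) = 1 := by
    simp_rw [← Finset.sum_mul, hj, one_mul]
    exact hi
  have h5 : ∑ i : Fin 2, ∑ j : Fin 4, ((chi (z / (lam / 2 ^ (j : ℕ) * 2)) *
      chis (z1 / (min Lam₁ lam / 8 ^ (i : ℕ))) : ℝ) : ℂ) = 1 := by
    rw [← Complex.ofReal_one, ← h4]
    simp only [Complex.ofReal_sum]
  simp_rw [← Finset.mul_sum]
  rw [h5, mul_one]

theorem pf_bns (hJM : Pool.Agent.H83.AR.T_JM) : T_BNS := by
  refine ⟨100, by norm_num, ?_⟩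
  intro a b lam Lam₁ Lam₂ t c₁ c₂ κ₁ κ₂ u w ξ ha hb hlam hu hc₁ hκ₁ hL1 hL2 hBS
  subst hκ₁
  have hl1 : 1 ≤ lam := by linarith
  have hsq : 1 ≤ Real.sqrt lam := Real.one_le_sqrt.mpr hl1
  have hsl : Real.sqrt lam ^ 2 = lam := Real.sq_sqrt (by linarith)
  have hLp : 0 < Lam₁ := by linarith
  have hJ := hJM a b
  have hn : ‖ξ‖ ^ 2 = ‖p1 a b ξ‖ ^ 2 + ‖p2 a b ξ‖ ^ 2 := hJ.2.2.2.1 ξ
  set x1 : ℝ := ‖p1 a b ξ‖ with hx1
  set x2 : ℝ := ‖p2 a b ξ‖ with hx2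
  set z1 : ℝ := inner ℝ (p1 a b ξ) u with hz1
  set z2 : ℝ := inner ℝ (p2 a b ξ) w with hz2
  set z : ℝ := zz a b u w ξ with hz
  have hzz : z ^ 2 = z1 ^ 2 + z2 ^ 2 := by
    rw [hz]; unfold zz
    rw [Real.sq_sqrt (by positivity)]
  have hz0 : 0 ≤ z := by rw [hz]; unfold zz; exact Real.sqrt_nonneg _
  -- the sector symbols
  have hS : ((c₁ x1 : ℝ) : ℂ) * sy a ch2 Lam₁ (dl lam Lam₁) u (p1 a b ξ) =
      sy a chi Lam₁ (dl lam Lam₁) u (p1 a b ξ) := by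
    rw [hc₁]
    unfold sy
    rw [← hx1, ← Complex.ofReal_mul]
    congr 1
    by_cases hc : chi (x1 / Lam₁) = 0
    · rw [hc]; ring
    · have := chi_sup hc
      have h2 : ch2 (x1 / Lam₁) = 1 := by
        unfold ch2
        rw [e0_one (by linarith), e0_zero (by linarith), sub_zero]
      rw [h2]; ring
  have hL : mB a b c₁ c₂ (sy a ch2 Lam₁ (dl lam Lam₁) u) κ₂ lam t ξ =
      mT lam t ξ * (sy a chi Lam₁ (dl lam Lam₁) u (p1 a b ξ) *
        (((c₂ x2 : ℝ) : ℂ) * κ₂ (p2 a b ξ))) := by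
    rw [← hS]
    unfold mB mc
    rw [← hx1, ← hx2]
    push_cast
    ring
  rw [hL]
  by_cases hA : chi (‖ξ‖ / lam) = 0
  · unfold mT mu
    rw [hA]
    simp
  by_cases hB : sy a chi Lam₁ (dl lam Lam₁) u (p1 a b ξ) = 0
  · rw [hB]; simp
  by_cases hC : ((c₂ x2 : ℝ) : ℂ) * κ₂ (p2 a b ξ) = 0
  · rw [hC]; simp
  have hA' := chi_sup hA
  rw [le_div_iff₀ (by linarith), div_le_iff₀ (by linarith)] at hA'
  have hB1 : chi (x1 / Lam₁) ≠ 0 := by
    intro h; apply hB; unfold sy; rw [← hx1, h]; simp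
  have hB2 : eta0 ((‖‖p1 a b ξ‖⁻¹ • p1 a b ξ - u‖ / dl lam Lam₁) ^ 2) ≠ 0 := by
    intro h; apply hB; unfold sy; rw [h]; simp
  have hB3 := chi_sup hB1
  rw [le_div_iff₀ hLp, div_le_iff₀ hLp] at hB3
  obtain ⟨s1, s2, s3⟩ := sector u (p1 a b ξ) lam Lam₁ hu hl1 hL1 (by linarith) (by linarith) hB2
  rw [← hx1, ← hz1] at s1
  rw [← hz1] at s2
  rw [← hx1, ← hz1] at s3
  -- the second block
  have s4 : x2 ^ 2 - z2 ^ 2 ≤ 4 * lam := by
    obtain ⟨hw, h | h⟩ := hBS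
    · obtain ⟨h1, h2, h3, h4⟩ := h
      have hLp2 : 0 < Lam₂ := by linarith
      subst h4
      have hC1 : chi (x2 / Lam₂) ≠ 0 := by
        intro h; apply hC; rw [h3, h]; simp
      have hC2 : eta0 ((‖‖p2 a b ξ‖⁻¹ • p2 a b ξ - w‖ / dl lam Lam₂) ^ 2) ≠ 0 := by
        intro h; apply hC; unfold sy; rw [h]; simp
      have hC3 := chi_sup hC1
      rw [le_div_iff₀ hLp2, div_le_iff₀ hLp2] at hC3
      obtain ⟨r1, r2, r3⟩ := sector w (p2 a b ξ) lam Lam₂ hw hl1 h1 (by linarith)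
        (by linarith) hC2
      rw [← hx2, ← hz2] at r1
      linarith
    · obtain ⟨h1, h2, h3⟩ := h
      have hC1 : eta0 (x2 / Lam₂) ≠ 0 := by
        intro h; apply hC; rw [h2, h]; simp
      have := e0_lt hC1
      rw [h1, div_lt_iff₀ (by linarith)] at this
      have hx20 : 0 ≤ x2 := norm_nonneg _
      nlinarith [sq_nonneg z2]
  have hξ0 : 0 ≤ ‖ξ‖ := norm_nonneg _
  have k1 : ‖ξ‖ ^ 2 - z ^ 2 ≤ 5 * lam := by linarith
  have hCS : z ≤ ‖ξ‖ := by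
    have h1 : z1 ^ 2 ≤ x1 ^ 2 := by
      have : |z1| ≤ x1 := by
        have := abs_real_inner_le_norm (p1 a b ξ) u
        rw [hu, mul_one] at this
        exact this
      exact sq_le_sq.mpr (by rw [abs_of_nonneg (norm_nonneg (p1 a b ξ) : 0 ≤ x1)]; exact this)
    have h2 : z2 ^ 2 ≤ x2 ^ 2 := by
      have : |z2| ≤ x2 := by
        have := abs_real_inner_le_norm (p2 a b ξ) w
        rw [hBS.1, mul_one] at this
        exact this
      exact sq_le_sq.mpr (by rw [abs_of_nonneg (norm_nonneg (p2 a b ξ) : 0 ≤ x2)]; exact this)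
    exact abs_le_of_sq_le_sq' (by linarith) hξ0 |>.2
  have k2 : lam / 4 ≤ z := by
    have : (lam / 4) ^ 2 ≤ z ^ 2 := by nlinarith
    exact abs_le_of_sq_le_sq' this hz0 |>.2
  have k3 : z ≤ 2 * lam := by linarith
  have hl0 : 0 < lam := by linarith
  have hmu : mu a b u w lam t ξ = e (t * (‖ξ‖ - z)) * ((chi (‖ξ‖ / lam) : ℝ) : ℂ) := by
    unfold mu
    rw [← hz]
    have h1 : ch2 (z / lam) = 1 := by
      unfold ch2
      rw [e0_one, e0_zero, sub_zero]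
      · rw [← mul_div_assoc, le_div_iff₀ hl0]; linarith
      · rw [div_div, div_le_iff₀ (by positivity)]; linarith
    have h2 : eta0 ((‖ξ‖ ^ 2 - z ^ 2) / (16 * lam)) = 1 :=
      e0_one (by rw [div_le_iff₀ (by positivity)]; linarith)
    rw [h1, h2]
    norm_num
  have hzl : z1 ≤ 2 * lam := by
    have : z1 ^ 2 ≤ z ^ 2 := by nlinarith [sq_nonneg z2]
    have := abs_le_of_sq_le_sq' this hz0 |>.2
    linarith
  have hsum := sum_cut z z1 lam Lam₁ t hl0 hLp k2 k3 hzl (by linarith) s2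
  rw [hmu, hsum]
  unfold mT
  have : t * ‖ξ‖ = t * (‖ξ‖ - z) + t * z := by ring
  rw [this, ee_add]
  ring

end Pool.Agent.H96.TN
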