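import Pool.Agent.H96.TN.BNS

/-!
TN, module BND, part 1: the data with the cutoffs of both blocks.
-/

set_option autoImplicit false

namespace Pool.Agent.H96.TN

open MeasureTheory Set FourierTransform
open Pool.Agent.H83.LS Pool.Agent.H93.AR Pool.Agent.H54.LS Pool.Agent.H14.LS Pool.Agent.H83.AR
open Pool.Agent.H84.BR Pool.Agent.H84.B2 Pool.Agent.H93.TN
open scoped ENNReal NNReal

theorem e0_smooth : ContDiff ℝ (⊤ : ℕ∞) eta0 := by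
  unfold eta0
  exact Real.smoothTransition.contDiff.comp (contDiff_const.sub contDiff_id)

theorem chi_RC : RC chi := by
  refine ⟨?_, fun s h => ?_⟩
  · unfold chi
    exact e0_smooth.sub (e0_smooth.comp (contDiff_const.mul contDiff_id))
  · have := chi_sup h
    constructor <;> linarith

theorem dl_pos {lam Lam : ℝ} (hl : 1 ≤ lam) (h1 : Real.sqrt lam ≤ Lam) : 0 < dl lam Lam := by
  have hsq : 1 ≤ Real.sqrt lam := Real.one_le_sqrt.mpr hl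
  have : 0 < Lam := by linarith
  unfold dl; positivity

theorem dl_le {lam Lam : ℝ} (hl : 1 ≤ lam) (h1 : Real.sqrt lam ≤ Lam) : dl lam Lam ≤ 1 / 8 := by
  have hsq : 1 ≤ Real.sqrt lam := Real.one_le_sqrt.mpr hl
  have : 0 < Lam := by linarith
  unfold dl
  rw [div_le_iff₀ (by positivity)]
  linarith

theorem norm_le_of_lint {d : ℕ} (κ : EE d → ℂ) (C : ℝ) (hC : 0 ≤ C)
    (h : ∫⁻ x, ‖κ x‖ₑ ≤ ENNReal.ofReal C) : ∫ x, ‖κ x‖ ≤ C := by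
  by_cases hm : AEStronglyMeasurable (fun x => ‖κ x‖) volume
  · rw [integral_eq_lintegral_of_nonneg_ae (Filter.Eventually.of_forall fun x => norm_nonneg _) hm]
    simp_rw [ofReal_norm]
    exact ENNReal.toReal_le_of_le_ofReal hC h
  · rw [integral_undef (fun hi => hm hi.aestronglyMeasurable)]
    exact hC

theorem BI_mono {d : ℕ} {A B : ℝ} {f : EE d → ℂ} (h : BI A f) (hAB : A ≤ B) : BI B f :=
  ⟨h.1, h.2.1, fun x => (h.2.2 x).trans hAB⟩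

theorem BI_nonneg {d : ℕ} {A : ℝ} {f : EE d → ℂ} (h : BI A f) : 0 ≤ A :=
  (norm_nonneg _).trans (h.2.2 0)

theorem chi_ch2 {n : ℕ} (c : ℝ → ℝ) (Lam r : ℝ) (u ξ : EE n) (hc : ∀ s, c s = chi (s / Lam)) :
    ((c ‖ξ‖ : ℝ) : ℂ) * sy n ch2 Lam r u ξ = sy n chi Lam r u ξ := by
  rw [hc]
  unfold sy
  rw [← Complex.ofReal_mul]
  congr 1
  by_cases h0 : chi (‖ξ‖ / Lam) = 0
  · rw [h0]; ring
  · have := chi_sup h0
    have h2 : ch2 (‖ξ‖ / Lam) = 1 := by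
      unfold ch2
      rw [e0_one (by linarith), e0_zero (by linarith), sub_zero]
    rw [h2]; ring

theorem g2_ex (hSEL : T_SEL) (hCB1 : T_CB1) (hCB2 : T_CB2) (hQM : T_QM) (a b : ℕ) (ha : 1 ≤ a)
    (hb : 1 ≤ b) : ∃ C : ℝ, 1 ≤ C ∧ ∀ (lam Lam₁ Lam₂ A : ℝ) (c₂ : ℝ → ℝ) (κ₂ : EE b → ℂ)
    (u : EE a) (w : EE b) (g : EE (a + b) → ℂ), 1 ≤ lam → ‖u‖ = 1 → Real.sqrt lam ≤ Lam₁ →
    BS b lam Lam₂ c₂ κ₂ w → BI A g → ∃ g2 : EE (a + b) → ℂ, BI (C * A) g2 ∧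
    (∀ ξ, 𝓕 g2 ξ = sy a chi Lam₁ (dl lam Lam₁) u (p1 a b ξ) *
      (((c₂ ‖p2 a b ξ‖ : ℝ) : ℂ) * κ₂ (p2 a b ξ)) * 𝓕 g ξ) ∧
    ∫⁻ x, ‖g2 x‖ₑ ^ 2 ≤ ENNReal.ofReal C * ∫⁻ x, ‖g x‖ₑ ^ 2 := by
  obtain ⟨C1, hC1, h1⟩ := hSEL a 0 chi ha chi_RC
  obtain ⟨C2, hC2, h2⟩ := hSEL b 0 chi hb chi_RC
  obtain ⟨C3, hC3, h3⟩ := hQM a b ha hb
  refine ⟨(1 + C1) ^ 2 * (1 + C2) ^ 2 * C3, ?_, ?_⟩
  · have e1 : 1 ≤ (1 + C1) ^ 2 := by nlinarith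
    have e2 : 1 ≤ (1 + C2) ^ 2 := by nlinarith
    have e3 : 1 ≤ (1 + C1) ^ 2 * (1 + C2) ^ 2 := by nlinarith
    nlinarith
  intro lam Lam₁ Lam₂ A c₂ κ₂ u w g hl hu hL1 hBS hg
  have hsq : 1 ≤ Real.sqrt lam := Real.one_le_sqrt.mpr hl
  have hA := BI_nonneg hg
  obtain ⟨s1, s2, s3, -, -⟩ := h1 Lam₁ (dl lam Lam₁) u (by linarith) (dl_pos hl hL1)
    (dl_le hl hL1) hu
  simp only [pow_zero, ENNReal.ofReal_one, mul_one] at s3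
  have s4 := norm_le_of_lint _ C1 hC1 s3
  obtain ⟨t1, t2, t3, -, -⟩ := hCB1 a b _ g A C1 ha hb s1 s2 hg
  have t1' : BI (C1 * A) (cb1 a b (MK (sy a chi Lam₁ (dl lam Lam₁) u)) g) :=
    BI_mono t1 (mul_le_mul_of_nonneg_right s4 hA)
  set f1 := cb1 a b (MK (sy a chi Lam₁ (dl lam Lam₁) u)) g with hf1
  have hC1A : 0 ≤ C1 * A := by positivity
  have hc1 : C1 ≤ (1 + C1) ^ 2 := by nlinarith
  have hc1' : C1 ^ 2 ≤ (1 + C1) ^ 2 := by nlinarith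
  have hc2 : C2 ≤ (1 + C2) ^ 2 := by nlinarith
  have hc2' : C2 ^ 2 ≤ (1 + C2) ^ 2 := by nlinarith
  have hc2'' : 1 ≤ (1 + C2) ^ 2 := by nlinarith
  obtain ⟨hw, h | h⟩ := hBS
  · obtain ⟨k1, k2, k3, k4⟩ := h
    obtain ⟨r1, r2, r3, -, -⟩ := h2 Lam₂ (dl lam Lam₂) w (by linarith) (dl_pos hl k1)
      (dl_le hl k1) hw
    simp only [pow_zero, ENNReal.ofReal_one, mul_one] at r3
    have r4 := norm_le_of_lint _ C2 hC2 r3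
    obtain ⟨q1, q2, q3⟩ := hCB2 a b _ f1 (C1 * A) C2 ha hb r1 r2 t1'
    refine ⟨_, BI_mono q1 ?_, fun ξ => ?_, ?_⟩
    · calc (∫ y, ‖MK (sy b chi Lam₂ (dl lam Lam₂) w) y‖) * (C1 * A) ≤ C2 * (C1 * A) :=
            mul_le_mul_of_nonneg_right r4 hC1A
        _ = (C1 * C2 * 1) * A := by ring
        _ ≤ _ := by gcongr
    · rw [q2, t2, k4, chi_ch2 c₂ Lam₂ _ w _ k3]
      ring
    · refine q3.trans ?_
      calc ENNReal.ofReal (C2 ^ 2) * ∫⁻ x, ‖f1 x‖ₑ ^ 2 ≤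
          ENNReal.ofReal (C2 ^ 2) * (ENNReal.ofReal (C1 ^ 2) * ∫⁻ x, ‖g x‖ₑ ^ 2) := by gcongr
        _ = ENNReal.ofReal (C1 ^ 2 * C2 ^ 2 * 1) * ∫⁻ x, ‖g x‖ₑ ^ 2 := by
            rw [mul_one, ENNReal.ofReal_mul (by positivity)]; ring
        _ ≤ _ := by gcongr
  · obtain ⟨k1, k2, k3⟩ := h
    obtain ⟨f2, q1, q2, q3, -⟩ := h3 Lam₂ (C1 * A) c₂ f1 (by linarith) (Or.inl k2) t1'
    refine ⟨f2, BI_mono q1 ?_, fun ξ => ?_, ?_⟩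
    · calc C3 * (C1 * A) = (C1 * 1 * C3) * A := by ring
        _ ≤ _ := by gcongr
    · rw [q2, t2, k3]
      ring
    · refine q3.trans (t3.trans ?_)
      gcongr
      calc C1 ^ 2 = C1 ^ 2 * 1 * 1 := by ring
        _ ≤ _ := by gcongr

end Pool.Agent.H96.TN
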