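import Pool.Agent.H96.TN.BND1

/-!
TN, module BND, part 2: the pointwise bound by planar operators.
-/

set_option autoImplicit false

namespace Pool.Agent.H96.TN

open MeasureTheory Set FourierTransform
open Pool.Agent.H83.LS Pool.Agent.H93.AR Pool.Agent.H54.LS Pool.Agent.H14.LS Pool.Agent.H83.AR
open Pool.Agent.H84.BR Pool.Agent.H84.B2 Pool.Agent.H93.TN
open scoped ENNReal NNReal

theorem norm_ee (x : ℝ) : ‖e x‖ = 1 := by
  unfold e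
  exact Complex.norm_exp_ofReal_mul_I _

theorem cont_ee : Continuous e := by
  unfold e
  fun_prop

theorem fourier_cont' {d : ℕ} (G : EE d → ℂ) (h1 : Integrable G) : Continuous (𝓕 G) :=
  VectorFourier.fourierIntegral_continuous Real.continuous_fourierChar
    (by exact continuous_inner) h1

theorem fourier_le {d : ℕ} (G : EE d → ℂ) (ξ : EE d) : ‖𝓕 G ξ‖ ≤ ∫ v, ‖G v‖ :=
  VectorFourier.norm_fourierIntegral_le_integral_norm _ _ _ _ _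

theorem int_mm {d : ℕ} (m U : EE d → ℂ) (hm : Integrable m) (hU : Integrable U) (x : EE d) :
    Integrable fun ξ : EE d => e (inner ℝ x ξ) * (m ξ * 𝓕 U ξ) := by
  have h1 : Integrable fun ξ : EE d => m ξ * 𝓕 U ξ :=
    hm.mul_bdd (c := ∫ v, ‖U v‖) (fourier_cont' U hU).aestronglyMeasurable
      (Filter.Eventually.of_forall fun ξ => fourier_le U ξ)
  refine h1.bdd_mul (c := 1) ?_ (Filter.Eventually.of_forall fun ξ => ?_)
  · exact (cont_ee.comp (by fun_prop)).aestronglyMeasurable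
  · rw [norm_ee]

/-- the upper bound for the pieces -/
noncomputable def Wk (a b : ℕ) (u : EE a) (w : EE b) (k : EE (a + b) → ℝ≥0∞)
    (g : EE (a + b) → ℂ) (lam Lam t : ℝ) (x : EE (a + b)) : ℝ≥0∞ :=
  ∫⁻ z, k z * ‖pl a b u w (KK t lam Lam) g (x - z)‖ₑ

theorem Wk_meas (a b : ℕ) (u : EE a) (w : EE b) (k : EE (a + b) → ℝ≥0∞)
    (g : EE (a + b) → ℂ) (lam Lam : ℝ) (hk : Measurable k)
    (hU : Measurable (fun p : ℝ × EE (a + b) => pl a b u w (KK p.1 lam Lam) g p.2)) :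
    Measurable (Function.uncurry (Wk a b u w k g lam Lam)) := by
  unfold Wk Function.uncurry
  apply Measurable.lintegral_prod_right'
    (f := fun q : (ℝ × EE (a + b)) × EE (a + b) =>
      k q.2 * ‖pl a b u w (KK q.1.1 lam Lam) g (q.1.2 - q.2)‖ₑ)
  refine (hk.comp measurable_snd).mul ?_
  have : Measurable (fun q : (ℝ × EE (a + b)) × EE (a + b) => (q.1.1, q.1.2 - q.2)) := by
    fun_prop
  exact (hU.comp this).enorm

/-- a multiplier applied to a bounded function -/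
theorem mm_le (hPLE : T_PLE) {d : ℕ} (m U : EE d → ℂ) (B : ℝ) (k : EE d → ℝ≥0∞)
    (hm : Measurable m) (hmi : Integrable m) (hm1 : ∀ ξ, ‖m ξ‖ ≤ 1) (hU : BI B U)
    (hk : ∀ x, ‖MK m x‖ₑ ≤ k x) (x : EE d) : ‖MM m U x‖ₑ ≤ ∫⁻ z, k z * ‖U (x - z)‖ₑ := by
  rw [(hPLE d m U hm hm1 hmi hU.2.1 ⟨B, hU.2.2⟩ hU.1).1 x]
  calc ‖∫ y, MK m (x - y) * U y‖ₑ ≤ ∫⁻ y, ‖MK m (x - y) * U y‖ₑ :=
        enorm_integral_le_lintegral_enorm _
    _ ≤ ∫⁻ y, k (x - y) * ‖U y‖ₑ := by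
        refine lintegral_mono fun y => ?_
        rw [enorm_mul]
        exact mul_le_mul_left (hk _) _
    _ = ∫⁻ z, k z * ‖U (x - z)‖ₑ := by
        rw [← lintegral_sub_left_eq_self (fun z => k z * ‖U (x - z)‖ₑ) x]
        refine lintegral_congr fun y => ?_
        rw [sub_sub_cancel]

theorem pw (hPLE : T_PLE) (a b : ℕ) (lam Lam₁ t B : ℝ) (c₁ c₂ : ℝ → ℝ)
    (κ₁ : EE a → ℂ) (κ₂ : EE b → ℂ) (u : EE a) (w : EE b) (g g2 : EE (a + b) → ℂ)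
    (k : EE (a + b) → ℝ≥0∞)
    (hBNS : ∀ ξ, mB a b c₁ c₂ κ₁ κ₂ lam t ξ = mu a b u w lam t ξ *
      (∑ i : Fin 2, ∑ j : Fin 4, e (t * zz a b u w ξ) *
        ((chi (zz a b u w ξ / (lam / 2 ^ (j : ℕ) * 2)) *
          chis (inner ℝ (p1 a b ξ) u / (min Lam₁ lam / 8 ^ (i : ℕ))) : ℝ) : ℂ)) *
      (sy a chi Lam₁ (dl lam Lam₁) u (p1 a b ξ) * (((c₂ ‖p2 a b ξ‖ : ℝ) : ℂ) * κ₂ (p2 a b ξ))))
    (hg2 : ∀ ξ, 𝓕 g2 ξ = sy a chi Lam₁ (dl lam Lam₁) u (p1 a b ξ) *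
      (((c₂ ‖p2 a b ξ‖ : ℝ) : ℂ) * κ₂ (p2 a b ξ)) * 𝓕 g ξ)
    (hPLP : ∀ (i : Fin 2) (j : Fin 4),
      BI B (pl a b u w (KK t (lam / 2 ^ (j : ℕ) * 2) (min Lam₁ lam / 8 ^ (i : ℕ))) g2) ∧
      ∀ ξ, 𝓕 (pl a b u w (KK t (lam / 2 ^ (j : ℕ) * 2) (min Lam₁ lam / 8 ^ (i : ℕ))) g2) ξ =
        e (t * zz a b u w ξ) * ((chi (zz a b u w ξ / (lam / 2 ^ (j : ℕ) * 2)) *
          chis (inner ℝ (p1 a b ξ) u / (min Lam₁ lam / 8 ^ (i : ℕ))) : ℝ) : ℂ) * 𝓕 g2 ξ)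
    (hm1 : Measurable (mu a b u w lam t)) (hm2 : Integrable (mu a b u w lam t))
    (hm3 : ∀ ξ, ‖mu a b u w lam t ξ‖ ≤ 1) (hk : ∀ x, ‖MK (mu a b u w lam t) x‖ₑ ≤ k x)
    (x : EE (a + b)) :
    ‖MM (mB a b c₁ c₂ κ₁ κ₂ lam t) g x‖ₑ ≤ ∑ i : Fin 2, ∑ j : Fin 4,
      Wk a b u w k g2 (lam / 2 ^ (j : ℕ) * 2) (min Lam₁ lam / 8 ^ (i : ℕ)) t x := by
  have key : MM (mB a b c₁ c₂ κ₁ κ₂ lam t) g x = ∑ i : Fin 2, ∑ j : Fin 4,
      MM (mu a b u w lam t)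
        (pl a b u w (KK t (lam / 2 ^ (j : ℕ) * 2) (min Lam₁ lam / 8 ^ (i : ℕ))) g2) x := by
    unfold MM
    have h1 : (fun ξ : EE (a + b) => e (inner ℝ x ξ) *
        (mB a b c₁ c₂ κ₁ κ₂ lam t ξ * 𝓕 g ξ)) = fun ξ => ∑ i : Fin 2, ∑ j : Fin 4,
        e (inner ℝ x ξ) * (mu a b u w lam t ξ * 𝓕 (pl a b u w
          (KK t (lam / 2 ^ (j : ℕ) * 2) (min Lam₁ lam / 8 ^ (i : ℕ))) g2) ξ) := by
      funext ξ
      simp_rw [fun i j => (hPLP i j).2 ξ, hBNS ξ, hg2 ξ]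
      simp only [Finset.mul_sum, Finset.sum_mul]
      refine Finset.sum_congr rfl fun i _ => Finset.sum_congr rfl fun j _ => ?_
      ring
    rw [h1, integral_finsetSum]
    · refine Finset.sum_congr rfl fun i _ => ?_
      rw [integral_finsetSum]
      intro j _
      exact int_mm _ _ hm2 (hPLP i j).1.2.1 x
    · intro i _
      refine integrable_finsetSum _ fun j _ => ?_
      exact int_mm _ _ hm2 (hPLP i j).1.2.1 x
  rw [key]
  refine (enorm_sum_le _ _).trans (Finset.sum_le_sum fun i _ => ?_)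
  refine (enorm_sum_le _ _).trans (Finset.sum_le_sum fun j _ => ?_)
  exact mm_le hPLE _ _ B k hm1 hm2 hm3 (hPLP i j).1 hk x

/-- integrals of sums of eight terms -/
theorem sum8 {d : ℕ} (q : ℝ) (hq : 1 ≤ q) (S : Set (EE d)) (F : ℝ → EE d → ℝ≥0∞)
    (W : Fin 2 → Fin 4 → ℝ → EE d → ℝ≥0∞) (B : ℝ≥0∞)
    (hW : ∀ i j, Measurable (Function.uncurry (W i j)))
    (hF : ∀ t ∈ Icc (1 : ℝ) 2, ∀ x, F t x ≤ ∑ i : Fin 2, ∑ j : Fin 4, W i j t x)
    (hB : ∀ i j, ∫⁻ t in Icc (1 : ℝ) 2, ∫⁻ x in S, W i j t x ^ q ≤ B) :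
    ∫⁻ t in Icc (1 : ℝ) 2, ∫⁻ x in S, F t x ^ q ≤ 8 ^ (q - 1) * (8 * B) := by
  have hpt : ∀ t ∈ Icc (1 : ℝ) 2, ∀ x, F t x ^ q ≤
      8 ^ (q - 1) * ∑ p : Fin 2 × Fin 4, W p.1 p.2 t x ^ q := by
    intro t ht x
    have h1 := hF t ht x
    rw [← Finset.sum_product'] at h1
    have h2 := ENNReal.rpow_sum_le_const_mul_sum_rpow
      (s := (Finset.univ ×ˢ Finset.univ : Finset (Fin 2 × Fin 4)))
      (f := fun p => W p.1 p.2 t x) hq
    refine (ENNReal.rpow_le_rpow h1 (by linarith)).trans (h2.trans (le_of_eq ?_))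
    simp
  have hWm : ∀ (p : Fin 2 × Fin 4) (t : ℝ), Measurable fun x => W p.1 p.2 t x ^ q := by
    intro p t
    exact ((hW p.1 p.2).comp (measurable_const.prodMk measurable_id)).pow_const q
  have hWt : ∀ p : Fin 2 × Fin 4, Measurable fun t => ∫⁻ x in S, W p.1 p.2 t x ^ q := by
    intro p
    exact Measurable.lintegral_prod_right'
      (f := fun z : ℝ × EE d => W p.1 p.2 z.1 z.2 ^ q) ((hW p.1 p.2).pow_const q)
  calc ∫⁻ t in Icc (1 : ℝ) 2, ∫⁻ x in S, F t x ^ q ≤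
      ∫⁻ t in Icc (1 : ℝ) 2, ∫⁻ x in S, 8 ^ (q - 1) *
        ∑ p : Fin 2 × Fin 4, W p.1 p.2 t x ^ q := by
        refine setLIntegral_mono' measurableSet_Icc fun t ht => ?_
        exact lintegral_mono fun x => hpt t ht x
    _ = 8 ^ (q - 1) * ∑ p : Fin 2 × Fin 4,
        ∫⁻ t in Icc (1 : ℝ) 2, ∫⁻ x in S, W p.1 p.2 t x ^ q := by
        rw [← lintegral_finsetSum _ (fun p _ => hWt p),
          ← lintegral_const_mul _ (Finset.measurable_sum _ fun p _ => hWt p)]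
        refine lintegral_congr fun t => ?_
        rw [lintegral_const_mul _ (Finset.measurable_sum _ fun p _ => hWm p t),
          lintegral_finsetSum _ (fun p _ => hWm p t)]
    _ ≤ 8 ^ (q - 1) * (8 * B) := by
        gcongr
        refine (Finset.sum_le_card_nsmul _ _ B fun p _ => hB p.1 p.2).trans (le_of_eq ?_)
        simp

end Pool.Agent.H96.TN
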