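import Pool.Agent.H96.TN.BND2

/-!
TN, module BND, part 3: bounded frequencies.
-/

set_option autoImplicit false

namespace Pool.Agent.H96.TN

open MeasureTheory Set FourierTransform
open Pool.Agent.H83.LS Pool.Agent.H93.AR Pool.Agent.H54.LS Pool.Agent.H14.LS Pool.Agent.H83.AR
open Pool.Agent.H84.BR Pool.Agent.H84.B2 Pool.Agent.H93.TN
open scoped ENNReal NNReal

theorem e0_cont : Continuous eta0 := e0_smooth.continuous

theorem e0_abs (s : ℝ) : |eta0 s| ≤ 1 := by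
  have h1 : 0 ≤ eta0 s := Real.smoothTransition.nonneg _
  have h2 : eta0 s ≤ 1 := Real.smoothTransition.le_one _
  rw [abs_of_nonneg h1]; exact h2

theorem chi_abs' (s : ℝ) : |chi s| ≤ 1 := by
  have h1 : 0 ≤ eta0 s := Real.smoothTransition.nonneg _
  have h2 : eta0 s ≤ 1 := Real.smoothTransition.le_one _
  have h3 : 0 ≤ eta0 (2 * s) := Real.smoothTransition.nonneg _
  have h4 : eta0 (2 * s) ≤ 1 := Real.smoothTransition.le_one _
  unfold chi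
  rw [abs_le]; constructor <;> linarith

theorem small_mc (hJM : Pool.Agent.H83.AR.T_JM) (a b : ℕ) (lam t : ℝ) (hl : 1 ≤ lam) :
    Continuous (mc a b (fun s => eta0 (s / (4 * lam))) (fun s => eta0 (s / (4 * lam))) lam t) ∧
    Integrable (mc a b (fun s => eta0 (s / (4 * lam))) (fun s => eta0 (s / (4 * lam))) lam t) ∧
    (∀ ξ, ‖mc a b (fun s => eta0 (s / (4 * lam))) (fun s => eta0 (s / (4 * lam))) lam t ξ‖ ≤ 1) ∧
    ∀ ξ, mT lam t ξ =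
      mc a b (fun s => eta0 (s / (4 * lam))) (fun s => eta0 (s / (4 * lam))) lam t ξ := by
  have hJ := hJM a b
  have hc1 : Continuous (p1 a b) := hJ.2.2.2.2.2.1
  have hc2 : Continuous (p2 a b) := hJ.2.2.2.2.2.2.1
  have hc : Continuous (mc a b (fun s => eta0 (s / (4 * lam)))
      (fun s => eta0 (s / (4 * lam))) lam t) := by
    unfold mc mT
    have h1 : Continuous fun ξ : EE (a + b) => e (t * ‖ξ‖) :=
      cont_ee.comp (continuous_const.mul continuous_norm)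
    have h2 : Continuous fun ξ : EE (a + b) => chi (‖ξ‖ / lam) := by
      unfold chi
      exact (e0_cont.comp (continuous_norm.div_const _)).sub
        (e0_cont.comp (continuous_const.mul (continuous_norm.div_const _)))
    have h3 : Continuous fun ξ : EE (a + b) => eta0 (‖p1 a b ξ‖ / (4 * lam)) :=
      e0_cont.comp (hc1.norm.div_const _)
    have h4 : Continuous fun ξ : EE (a + b) => eta0 (‖p2 a b ξ‖ / (4 * lam)) :=
      e0_cont.comp (hc2.norm.div_const _)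
    exact (h1.mul (Complex.continuous_ofReal.comp h2)).mul
      (Complex.continuous_ofReal.comp (h3.mul h4))
  refine ⟨hc, ?_, fun ξ => ?_, fun ξ => ?_⟩
  · apply hc.integrable_of_hasCompactSupport
    refine HasCompactSupport.of_support_subset_isCompact
      (isCompact_closedBall (0 : EE (a + b)) (2 * lam)) ?_
    intro ξ hξ
    rw [mem_closedBall_zero_iff]
    by_contra hcon
    apply hξ
    unfold mc mT
    have : chi (‖ξ‖ / lam) = 0 := by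
      by_contra h0
      have := (chi_sup h0).2
      rw [div_le_iff₀ (by linarith)] at this
      exact hcon this
    rw [this]
    simp
  · unfold mc mT
    rw [norm_mul, norm_mul, norm_ee, one_mul, Complex.norm_real, Complex.norm_real,
      Real.norm_eq_abs, Real.norm_eq_abs, abs_mul]
    have h1 := chi_abs' (‖ξ‖ / lam)
    have h2 := e0_abs (‖p1 a b ξ‖ / (4 * lam))
    have h3 := e0_abs (‖p2 a b ξ‖ / (4 * lam))
    calc |chi (‖ξ‖ / lam)| * (|eta0 (‖p1 a b ξ‖ / (4 * lam))| *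
          |eta0 (‖p2 a b ξ‖ / (4 * lam))|) ≤ 1 * (1 * 1) := by gcongr
      _ = 1 := by norm_num
  · unfold mc
    by_cases h0 : chi (‖ξ‖ / lam) = 0
    · unfold mT
      rw [h0]
      simp
    · have h1 := (chi_sup h0).2
      rw [div_le_iff₀ (by linarith)] at h1
      have hn : ‖ξ‖ ^ 2 = ‖p1 a b ξ‖ ^ 2 + ‖p2 a b ξ‖ ^ 2 := hJ.2.2.2.1 ξ
      have hξ0 : 0 ≤ ‖ξ‖ := norm_nonneg _
      have h2 : ‖p1 a b ξ‖ ≤ ‖ξ‖ :=
        abs_le_of_sq_le_sq' (by nlinarith [sq_nonneg ‖p2 a b ξ‖]) hξ0 |>.2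
      have h3 : ‖p2 a b ξ‖ ≤ ‖ξ‖ :=
        abs_le_of_sq_le_sq' (by nlinarith [sq_nonneg ‖p1 a b ξ‖]) hξ0 |>.2
      have h4 : eta0 (‖p1 a b ξ‖ / (4 * lam)) = 1 :=
        e0_one (by rw [div_le_iff₀ (by linarith)]; linarith)
      have h5 : eta0 (‖p2 a b ξ‖ / (4 * lam)) = 1 :=
        e0_one (by rw [div_le_iff₀ (by linarith)]; linarith)
      simp only [h4, h5]
      simp

theorem mB_g2 (a b : ℕ) (lam Lam₁ t : ℝ) (c₁ c₂ : ℝ → ℝ) (κ₂ : EE b → ℂ) (u : EE a)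
    (g g2 : EE (a + b) → ℂ) (hc₁ : ∀ s, c₁ s = chi (s / Lam₁))
    (hg2 : ∀ ξ, 𝓕 g2 ξ = sy a chi Lam₁ (dl lam Lam₁) u (p1 a b ξ) *
      (((c₂ ‖p2 a b ξ‖ : ℝ) : ℂ) * κ₂ (p2 a b ξ)) * 𝓕 g ξ) (x : EE (a + b)) :
    MM (mB a b c₁ c₂ (sy a ch2 Lam₁ (dl lam Lam₁) u) κ₂ lam t) g x =
      MM (mT lam t) g2 x := by
  unfold MM
  refine integral_congr_ae (Filter.Eventually.of_forall fun ξ => ?_)
  simp only
  rw [hg2 ξ, ← chi_ch2 c₁ Lam₁ _ u _ hc₁]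
  unfold mB mc
  push_cast
  ring

/-- bounded frequencies -/
theorem small (hJM : Pool.Agent.H83.AR.T_JM) (hPLE : T_PLE) (hSV2 : T_SV2) (a b : ℕ) (ha : 1 ≤ a)
    (hb : 1 ≤ b) (q lam₀ C₂ : ℝ) (hq : 2 < q) (hC₂ : 1 ≤ C₂) : ∃ C : ℝ, 0 ≤ C ∧
    ∀ (lam Lam₁ A : ℝ) (c₁ c₂ : ℝ → ℝ) (κ₂ : EE b → ℂ) (u : EE a)
    (g g2 : EE (a + b) → ℂ) (S : Set (EE (a + b))), 1 ≤ lam → lam ≤ lam₀ →
    (∀ s, c₁ s = chi (s / Lam₁)) → 0 ≤ A → BI (C₂ * A) g2 →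
    (∀ ξ, 𝓕 g2 ξ = sy a chi Lam₁ (dl lam Lam₁) u (p1 a b ξ) *
      (((c₂ ‖p2 a b ξ‖ : ℝ) : ℂ) * κ₂ (p2 a b ξ)) * 𝓕 g ξ) →
    ∫⁻ x, ‖g2 x‖ₑ ^ 2 ≤ ENNReal.ofReal C₂ * ∫⁻ x, ‖g x‖ₑ ^ 2 →
    ∫⁻ t in Icc (1 : ℝ) 2, ∫⁻ x in S,
      ‖MM (mB a b c₁ c₂ (sy a ch2 Lam₁ (dl lam Lam₁) u) κ₂ lam t) g x‖ₑ ^ q ≤
      ENNReal.ofReal (C * A ^ (q - 2)) * ∫⁻ x, ‖g x‖ₑ ^ 2 := by
  obtain ⟨C, hC, h⟩ := hSV2 a b ha hb
  refine ⟨(C * |lam₀| ^ (((a : ℝ) + b - 1) / 2) * C₂) ^ (q - 2) * C₂, by positivity, ?_⟩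
  intro lam Lam₁ A c₁ c₂ κ₂ u g g2 S hl hl2 hc₁ hA hg2 hF hE
  have hsq : Real.sqrt lam ≤ 4 * lam := by
    have : Real.sqrt lam ≤ lam := Real.sqrt_le_self_iff.mpr (Or.inr hl) |> fun h => h
    linarith
  have hlp : 0 < lam := by linarith
  have hexp : 0 ≤ ((a : ℝ) + b - 1) / 2 := by
    have : (1 : ℝ) ≤ a := by exact_mod_cast ha
    have : (0 : ℝ) ≤ b := by positivity
    linarith
  set M : ℝ := C * |lam₀| ^ (((a : ℝ) + b - 1) / 2) * (C₂ * A) with hM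
  have hM0 : 0 ≤ M := by positivity
  have hpt : ∀ t ∈ Icc (1 : ℝ) 2, ∀ x,
      ‖MM (mB a b c₁ c₂ (sy a ch2 Lam₁ (dl lam Lam₁) u) κ₂ lam t) g x‖ₑ ≤ ENNReal.ofReal M ∧
      ∫⁻ x, ‖MM (mB a b c₁ c₂ (sy a ch2 Lam₁ (dl lam Lam₁) u) κ₂ lam t) g x‖ₑ ^ 2 ≤
        ∫⁻ x, ‖g2 x‖ₑ ^ 2 := by
    intro t ht x
    obtain ⟨m1, m2, m3, m4⟩ := small_mc hJM a b lam t hl
    have hmm : ∀ x, MM (mB a b c₁ c₂ (sy a ch2 Lam₁ (dl lam Lam₁) u) κ₂ lam t) g x =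
        MM (mc a b (fun s => eta0 (s / (4 * lam))) (fun s => eta0 (s / (4 * lam))) lam t)
          g2 x := by
      intro x
      rw [mB_g2 a b lam Lam₁ t c₁ c₂ κ₂ u g g2 hc₁ hF x]
      congr 1
      funext ξ
      exact m4 ξ
    constructor
    · rw [hmm]
      have h1 := (h lam (4 * lam) (4 * lam) t (fun s => eta0 (s / (4 * lam)))
        (fun s => eta0 (s / (4 * lam))) hl hsq le_rfl hsq le_rfl (Or.inl fun s => rfl)
        (Or.inl fun s => rfl) ht).1 (C₂ * A) g2 hg2 x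
      rw [← ofReal_norm]
      refine ENNReal.ofReal_le_ofReal (h1.trans ?_)
      have : lam ≤ |lam₀| := hl2.trans (le_abs_self _)
      rw [hM]
      gcongr
    · simp_rw [hmm]
      exact (hPLE (a + b) _ g2 m1.measurable m3 m2 hg2.2.1 ⟨_, hg2.2.2⟩ hg2.1).2
  have hpow : ∀ y : ℝ≥0∞, y ≤ ENNReal.ofReal M →
      y ^ q ≤ ENNReal.ofReal (M ^ (q - 2)) * y ^ 2 := by
    intro y hy
    have h1 : y ^ q = y ^ (q - 2) * y ^ (2 : ℝ) := by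
      rw [← ENNReal.rpow_add_of_nonneg _ _ (by linarith) (by norm_num)]
      congr 1
      ring
    rw [h1, ENNReal.rpow_two, ← ENNReal.ofReal_rpow_of_nonneg hM0 (by linarith)]
    gcongr
  calc ∫⁻ t in Icc (1 : ℝ) 2, ∫⁻ x in S,
      ‖MM (mB a b c₁ c₂ (sy a ch2 Lam₁ (dl lam Lam₁) u) κ₂ lam t) g x‖ₑ ^ q ≤
      ∫⁻ t in Icc (1 : ℝ) 2, ENNReal.ofReal (M ^ (q - 2)) * ∫⁻ x, ‖g2 x‖ₑ ^ 2 := by
        refine setLIntegral_mono' measurableSet_Icc fun t ht => ?_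
        refine (setLIntegral_le_lintegral _ _).trans ?_
        calc ∫⁻ x, ‖MM (mB a b c₁ c₂ (sy a ch2 Lam₁ (dl lam Lam₁) u) κ₂ lam t) g x‖ₑ ^ q ≤
            ∫⁻ x, ENNReal.ofReal (M ^ (q - 2)) *
              ‖MM (mB a b c₁ c₂ (sy a ch2 Lam₁ (dl lam Lam₁) u) κ₂ lam t) g x‖ₑ ^ 2 :=
              lintegral_mono fun x => hpow _ (hpt t ht x).1
          _ = ENNReal.ofReal (M ^ (q - 2)) * ∫⁻ x,
              ‖MM (mB a b c₁ c₂ (sy a ch2 Lam₁ (dl lam Lam₁) u) κ₂ lam t) g x‖ₑ ^ 2 :=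
              lintegral_const_mul' _ _ ENNReal.ofReal_ne_top
          _ ≤ _ := mul_le_mul' le_rfl (hpt t ht 0).2
    _ = ENNReal.ofReal (M ^ (q - 2)) * ∫⁻ x, ‖g2 x‖ₑ ^ 2 := by
        rw [setLIntegral_const, Real.volume_Icc]
        norm_num
    _ ≤ ENNReal.ofReal (M ^ (q - 2)) * (ENNReal.ofReal C₂ * ∫⁻ x, ‖g x‖ₑ ^ 2) := by gcongr
    _ = _ := by
        rw [← mul_assoc, ← ENNReal.ofReal_mul (by positivity)]
        congr 2
        rw [hM, ← mul_assoc, Real.mul_rpow (by positivity) hA]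
        ring

end Pool.Agent.H96.TN
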